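import Pool.Agent.BBT.Naka

/-!
# Nil augmentation ideal: proper subgroups lie in normal subgroups of index `p`
-/

namespace Pool.Agent.BBT

open Pool.Agent.NilAm Pool.Agent.NilExt

variable {K G : Type*} [Field K] [Group G]

/-- The projection of the group algebra to the coset space. -/
noncomputable def cosetMap (K : Type*) {G : Type*} [Field K] [Group G] (M : Subgroup G) :
    MonoidAlgebra K G →ₗ[K] ((G ⧸ M) →₀ K) :=
  (MonoidAlgebra.basis G K).constr K fun g => Finsupp.single (g : G ⧸ M) 1

theorem cosetMap_of (M : Subgroup G) (g : G) :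
    cosetMap K M (MonoidAlgebra.of K G g) = Finsupp.single (g : G ⧸ M) 1 := by
  have h1 : MonoidAlgebra.of K G g = MonoidAlgebra.basis G K g := by
    rw [MonoidAlgebra.basis_apply]
    rfl
  rw [h1]
  exact Module.Basis.constr_basis _ _ _ _

/-- The left ideal generated by the `m - 1`, `m ∈ M`. -/
noncomputable def augM (K : Type*) {G : Type*} [Field K] [Group G] (M : Subgroup G) :
    Ideal (MonoidAlgebra K G) :=
  Ideal.span {y | ∃ m ∈ M, y = MonoidAlgebra.of K G m - 1}

theorem cosetMap_mul {M : Subgroup G} {x : MonoidAlgebra K G} (hx : x ∈ augM K M) :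
    ∀ a : MonoidAlgebra K G, cosetMap K M (a * x) = 0 := by
  unfold augM Ideal.span at hx
  induction hx using Submodule.span_induction with
  | mem y hy =>
    obtain ⟨m, hm, rfl⟩ := hy
    intro a
    induction a using MonoidAlgebra.induction_on with
    | of g =>
      rw [mul_sub, mul_one, ← map_mul, map_sub, cosetMap_of, cosetMap_of, sub_eq_zero]
      congr 1
      refine QuotientGroup.eq.2 ?_
      have : (g * m)⁻¹ * g = m⁻¹ := by group
      rw [this]
      exact M.inv_mem hm
    | add x y hx hy => rw [add_mul, map_add, hx, hy, add_zero]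
    | smul r x hx => rw [smul_mul_assoc, map_smul, hx, smul_zero]
  | zero => intro a; rw [mul_zero, map_zero]
  | add x y _ _ hx hy => intro a; rw [mul_add, map_add, hx, hy, add_zero]
  | smul b y _ hy => intro a; rw [smul_eq_mul, ← mul_assoc]; exact hy _

theorem eq_top_of_le {M : Subgroup G} (h : augIdeal K G ≤ augM K M) : M = ⊤ := by
  refine (Subgroup.eq_top_iff' M).2 fun g => ?_
  have h1 := cosetMap_mul (h (of_sub_one_mem g)) 1
  rw [one_mul, map_sub, ← map_one (MonoidAlgebra.of K G), cosetMap_of, cosetMap_of,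
    sub_eq_zero] at h1
  have h2 := Finsupp.single_left_injective (one_ne_zero' K) h1
  have h3 := QuotientGroup.eq.1 h2.symm
  simpa using h3

theorem augIdeal_eq : augIdeal K G = augSub K (⊤ : Submodule (MonoidAlgebra K G) (MonoidAlgebra K G)) := by
  apply le_antisymm
  · refine Ideal.span_le.2 ?_
    rintro y ⟨g, rfl⟩
    exact Submodule.subset_span ⟨g, 1, trivial, by rw [smul_eq_mul, mul_one]⟩
  · refine Submodule.span_le.2 ?_
    rintro y ⟨g, u, -, rfl⟩
    exact aug_mul_right (of_sub_one_mem g) u

theorem map_augSub_le {V V' : Type*} [AddCommGroup V] [Module (MonoidAlgebra K G) V]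
    [AddCommGroup V'] [Module (MonoidAlgebra K G) V'] (f : V →ₗ[MonoidAlgebra K G] V')
    (N : Submodule (MonoidAlgebra K G) V) : (augSub K N).map f ≤ augSub K (N.map f) := by
  rw [Submodule.map_le_iff_le_comap]
  refine Submodule.span_le.2 ?_
  rintro y ⟨g, u, hu, rfl⟩
  change f ((MonoidAlgebra.of K G g - 1) • u) ∈ augSub K (N.map f)
  rw [map_smul]
  exact Submodule.subset_span ⟨g, f u, Submodule.mem_map_of_mem hu, rfl⟩

theorem not_le (hnil : Nil K G) [Group.FG G] (M : Subgroup G) (hM : M ≠ ⊤) :
    ¬ augIdeal K G ≤ augSub K (augIdeal K G) ⊔ augM K M := by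
  intro h
  apply hM
  apply eq_top_of_le (K := K)
  have hfg : (augIdeal K G).FG := by
    rw [augIdeal_eq]
    refine augSub_fg ?_
    exact ⟨{1}, by rw [Finset.coe_singleton]; exact Ideal.span_singleton_one⟩
  have h1 : Submodule.map (Submodule.mkQ (augM K M)) (augIdeal K G) = ⊥ := by
    refine naka hnil _ (Submodule.FG.map _ hfg) ?_
    refine (Submodule.map_mono h).trans ?_
    rw [Submodule.map_sup, Submodule.mkQ_map_self, sup_bot_eq]
    exact map_augSub_le _ _
  have h2 := (Submodule.map_le_iff_le_comap (f := Submodule.mkQ (augM K M))).1 (le_of_eq h1)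
  rw [Submodule.comap_bot, Submodule.ker_mkQ] at h2
  exact h2

theorem exists_char (hnil : Nil K G) [Group.FG G] (M : Subgroup G) (hM : M ≠ ⊤) :
    ∃ c : G → K, (∀ g h, c (g * h) = c g + c h) ∧ (∀ m ∈ M, c m = 0) ∧ ∃ g, c g ≠ 0 := by
  obtain ⟨x, hx, hxJ⟩ := SetLike.not_le_iff_exists.1 (not_le hnil M hM)
  set J := augSub K (augIdeal K G) ⊔ augM K M with hJ
  obtain ⟨f, hf, hf0⟩ := Submodule.exists_dual_map_eq_bot_of_notMem
    (p := J.restrictScalars K) (x := x) hxJ inferInstance
  have hfJ : ∀ y ∈ J, f y = 0 := by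
    intro y hy
    have : f y ∈ (J.restrictScalars K).map f := Submodule.mem_map_of_mem hy
    rw [hf0] at this
    exact (Submodule.mem_bot _).1 this
  have hmul : ∀ g h : G, f ((MonoidAlgebra.of K G g - 1) * (MonoidAlgebra.of K G h - 1)) = 0 := by
    intro g h
    refine hfJ _ (Submodule.mem_sup_left ?_)
    exact Submodule.subset_span ⟨g, _, of_sub_one_mem h, rfl⟩
  have hadd : ∀ g h : G, f (MonoidAlgebra.of K G g * (MonoidAlgebra.of K G h - 1))
      = f (MonoidAlgebra.of K G h - 1) := by
    intro g h
    have h1 : MonoidAlgebra.of K G g * (MonoidAlgebra.of K G h - 1)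
        = (MonoidAlgebra.of K G g - 1) * (MonoidAlgebra.of K G h - 1)
          + (MonoidAlgebra.of K G h - 1) := by
      rw [sub_mul, one_mul]
      abel
    rw [h1, map_add, hmul, zero_add]
  refine ⟨fun g => f (MonoidAlgebra.of K G g - 1), ?_, ?_, ?_⟩
  · intro g h
    have h1 : MonoidAlgebra.of K G (g * h) - 1
        = MonoidAlgebra.of K G g * (MonoidAlgebra.of K G h - 1)
          + (MonoidAlgebra.of K G g - 1) := by
      rw [map_mul, mul_sub, mul_one]
      abel
    change f (MonoidAlgebra.of K G (g * h) - 1) = _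
    rw [h1, map_add, hadd, add_comm]
  · intro m hm
    exact hfJ _ (Submodule.mem_sup_right (Ideal.subset_span ⟨m, hm, rfl⟩))
  · by_contra hcon
    push Not at hcon
    apply hf
    have key : ∀ y ∈ augIdeal K G, ∀ a : MonoidAlgebra K G, f (a * y) = 0 := by
      intro y hy
      unfold augIdeal Ideal.span at hy
      induction hy using Submodule.span_induction with
      | mem y hy =>
        obtain ⟨h, rfl⟩ := hy
        intro a
        induction a using MonoidAlgebra.induction_on with
        | of g => rw [hadd, hcon]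
        | add x y hx hy => rw [add_mul, map_add, hx, hy, add_zero]
        | smul r x hx => rw [smul_mul_assoc, map_smul, hx, smul_zero]
      | zero => intro a; rw [mul_zero, map_zero]
      | add x y _ _ hx hy => intro a; rw [mul_add, map_add, hx, hy, add_zero]
      | smul b y _ hy => intro a; rw [smul_eq_mul, ← mul_assoc]; exact hy _
    have := key x hx 1
    rwa [one_mul] at this

/-- **Burnside's basis theorem.** -/
theorem exists_normal (p : ℕ) [hp : Fact p.Prime] [CharP K p] (hnil : Nil K G) [Group.FG G]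
    (M : Subgroup G) (hM : M ≠ ⊤) : ∃ N : Subgroup G, N.Normal ∧ N.index = p ∧ M ≤ N := by
  obtain ⟨c, hc, hcM, g₀, hg₀⟩ := exists_char hnil M hM
  let : Algebra (ZMod p) K := ZMod.algebra K p
  obtain ⟨φ, hφ⟩ : ∃ φ : Module.Dual (ZMod p) K, φ (c g₀) ≠ 0 := by
    by_contra hcon
    push Not at hcon
    exact hg₀ ((Module.forall_dual_apply_eq_zero_iff (ZMod p) (c g₀)).1 hcon)
  let χ : G →* Multiplicative (ZMod p) :=
    { toFun := fun g => Multiplicative.ofAdd (φ (c g))
      map_one' := by
        have h1 : c 1 = 0 := by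
          have := hc 1 1
          rw [mul_one] at this
          simpa using this
        rw [h1, map_zero]
        rfl
      map_mul' := fun g h => by rw [hc, map_add]; rfl }
  refine ⟨χ.ker, inferInstance, ?_, ?_⟩
  · rw [Subgroup.index_ker]
    have hcard : Nat.card (Multiplicative (ZMod p)) = p := Nat.card_zmod p
    have : Fact (Nat.card (Multiplicative (ZMod p))).Prime := ⟨by rw [hcard]; exact hp.out⟩
    rcases Subgroup.eq_bot_or_eq_top_of_prime_card χ.range with h | h
    · exfalso
      apply hφ
      have h1 : χ g₀ ∈ χ.range := ⟨g₀, rfl⟩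
      rw [h] at h1
      exact Multiplicative.ofAdd.injective (Subgroup.mem_bot.1 h1)
    · rw [h, Subgroup.card_top, hcard]
  · intro m hm
    rw [MonoidHom.mem_ker]
    change Multiplicative.ofAdd (φ (c m)) = 1
    rw [hcM m hm, map_zero]
    rfl

end Pool.Agent.BBT
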