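import Pool.Agent.BBT.Basis

/-!
# Nil augmentation ideal: chains of subgroups and just infinite quotients
-/

namespace Pool.Agent.BBT

open Pool.Agent.NilAm Pool.Agent.NilExt

variable {K G : Type*} [Field K] [Group G]

theorem step (p : ℕ) [hp : Fact p.Prime] [CharP K p] (hnil : Nil K G) [Group.FG G]
    {M : Subgroup G} (hM : M.index = 0) {H : Subgroup G} (hH : H.index ≠ 0) (hMH : M ≤ H) :
    ∃ N : Subgroup G, N.index ≠ 0 ∧ M ≤ N ∧ N ≤ H ∧ (N.subgroupOf H).Normal ∧
      N.relIndex H = p := by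
  have hfi : H.FiniteIndex := ⟨hH⟩
  have hfg : Group.FG H := Subgroup.fg_of_index_ne_zero H
  have hne : M.subgroupOf H ≠ ⊤ := by
    intro h
    have h1 : H ≤ M := Subgroup.subgroupOf_eq_top.1 h
    have h2 : H = M := le_antisymm h1 hMH
    exact hH (h2 ▸ hM)
  obtain ⟨N', hN', hidx, hle⟩ := exists_normal p (nil_of_subgroup H hnil) (M.subgroupOf H) hne
  have hsub : (N'.map H.subtype).subgroupOf H = N' :=
    Subgroup.comap_map_eq_self_of_injective (Subgroup.subtype_injective H) N'
  have hNH : N'.map H.subtype ≤ H := Subgroup.map_subtype_le N'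
  have hrel : (N'.map H.subtype).relIndex H = p := by
    unfold Subgroup.relIndex
    rw [hsub, hidx]
  refine ⟨N'.map H.subtype, ?_, ?_, hNH, ?_, hrel⟩
  · rw [← Subgroup.relIndex_mul_index hNH, hrel]
    exact mul_ne_zero hp.out.ne_zero hH
  · intro m hm
    exact ⟨⟨m, hMH hm⟩, hle hm, rfl⟩
  · rw [hsub]
    exact hN'

theorem exists_chain (p : ℕ) [hp : Fact p.Prime] [CharP K p] (hnil : Nil K G) [Group.FG G]
    (M : Subgroup G) (hM : M.index = 0) :
    ∃ N : ℕ → Subgroup G, N 0 = ⊤ ∧ ∀ i, M ≤ N i ∧ N (i + 1) ≤ N i ∧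
      ((N (i + 1)).subgroupOf (N i)).Normal ∧ (N (i + 1)).relIndex (N i) = p := by
  classical
  let P := {H : Subgroup G // H.index ≠ 0 ∧ M ≤ H}
  have hstep : ∀ H : P, ∃ N : P, N.1 ≤ H.1 ∧ (N.1.subgroupOf H.1).Normal ∧
      N.1.relIndex H.1 = p := by
    intro H
    obtain ⟨N, h1, h2, h3, h4, h5⟩ := step p hnil hM H.2.1 H.2.2
    exact ⟨⟨N, h1, h2⟩, h3, h4, h5⟩
  choose nx hnx using hstep
  let sq : ℕ → P := fun n => Nat.rec ⟨⊤, by simp, le_top⟩ (fun _ H => nx H) n
  refine ⟨fun n => (sq n).1, rfl, fun i => ⟨(sq i).2.2, ?_⟩⟩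
  exact hnx (sq i)

/-- Just infinite: infinite, and all normal subgroups except the trivial one have finite index. -/
def JustInf (G : Type*) [Group G] : Prop :=
  Infinite G ∧ ∀ N : Subgroup G, N.Normal → N ≠ ⊥ → N.index ≠ 0

/-- Residually finite. -/
def ResFin (G : Type*) [Group G] : Prop :=
  ∀ g : G, g ≠ 1 → ∃ N : Subgroup G, N.Normal ∧ N.index ≠ 0 ∧ g ∉ N

theorem exists_justInf (G : Type*) [Group G] [hG : Group.FG G] [Infinite G] :
    ∃ (N : Subgroup G) (_ : N.Normal), JustInf (G ⧸ N) := by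
  classical
  obtain ⟨N, -, hN⟩ := zorn_le_nonempty₀ {N : Subgroup G | N.Normal ∧ N.index = 0} (by
    intro c hc hchain y hy
    have hne : c.Nonempty := ⟨y, hy⟩
    have hdir : DirectedOn (· ≤ ·) c := hchain.directedOn
    have hmem : ∀ x, x ∈ sSup c ↔ ∃ s ∈ c, x ∈ s := fun x =>
      Subgroup.mem_sSup_of_directedOn hne hdir
    refine ⟨sSup c, ⟨⟨?_⟩, ?_⟩, fun z hz => le_sSup hz⟩
    · intro n hn g
      obtain ⟨s, hs, hns⟩ := (hmem n).1 hn
      exact (hmem _).2 ⟨s, hs, (hc hs).1.conj_mem n hns g⟩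
    · by_contra hidx
      have hfi : (sSup c).FiniteIndex := ⟨hidx⟩
      have hfg : Group.FG (sSup c : Subgroup G) := Subgroup.fg_of_index_ne_zero _
      obtain ⟨T, hT⟩ := (Group.fg_iff_subgroup_fg (sSup c)).1 hfg
      have hall : ∀ T : Finset G, (∀ t ∈ T, t ∈ sSup c) → ∃ s ∈ c, ∀ t ∈ T, t ∈ s := by
        intro T
        induction T using Finset.induction_on with
        | empty => intro _; exact ⟨y, hy, by simp⟩
        | insert a T _ ih =>
          intro h
          obtain ⟨s, hs, hsT⟩ := ih fun t ht => h t (Finset.mem_insert_of_mem ht)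
          obtain ⟨s', hs', ha⟩ := (hmem a).1 (h a (Finset.mem_insert_self _ _))
          obtain ⟨s'', hs'', h1, h2⟩ := hdir s hs s' hs'
          refine ⟨s'', hs'', fun t ht => ?_⟩
          rcases Finset.mem_insert.1 ht with rfl | ht
          · exact h2 ha
          · exact h1 (hsT t ht)
      obtain ⟨s, hs, hsT⟩ := hall T fun t ht => by
        rw [← hT]
        exact Subgroup.subset_closure ht
      have hle : sSup c ≤ s := by
        rw [← hT]
        exact (Subgroup.closure_le _).2 hsT
      have heq : sSup c = s := le_antisymm hle (le_sSup hs)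
      exact hidx (heq ▸ (hc hs).2)) ⊥ ⟨inferInstance, by
        rw [Subgroup.index_bot]
        exact Nat.card_eq_zero_of_infinite⟩
  have hNn : N.Normal := hN.1.1
  refine ⟨N, hNn, ?_, ?_⟩
  · by_contra hfin
    rw [not_infinite_iff_finite] at hfin
    exact Subgroup.FiniteIndex.index_ne_zero (self := Subgroup.finiteIndex_of_finite_quotient)
      hN.1.2
  · intro N' hN' hne hidx
    apply hne
    have h1 : (N'.comap (QuotientGroup.mk' N)).index = 0 := by
      rw [Subgroup.index_comap_of_surjective _ (QuotientGroup.mk'_surjective N)]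
      exact hidx
    have h2 : N ≤ N'.comap (QuotientGroup.mk' N) := by
      intro x hx
      rw [Subgroup.mem_comap]
      have : QuotientGroup.mk' N x = 1 := (QuotientGroup.eq_one_iff x).2 hx
      rw [this]
      exact N'.one_mem
    have h3 := hN.2 (y := N'.comap (QuotientGroup.mk' N)) ⟨hN'.comap _, h1⟩ h2
    rw [eq_bot_iff]
    intro x hx
    obtain ⟨g, rfl⟩ := QuotientGroup.mk'_surjective N x
    exact Subgroup.mem_bot.2 ((QuotientGroup.eq_one_iff g).2 (h3 hx))

theorem resFin_of_justInf (p : ℕ) [hp : Fact p.Prime] [CharP K p] (hnil : Nil K G)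
    [Group.FG G] (hJ : JustInf G) : ResFin G := by
  set R : Subgroup G := sInf {N : Subgroup G | N.Normal ∧ N.index ≠ 0} with hR
  have hRn : R.Normal := by
    refine ⟨fun n hn g => ?_⟩
    rw [hR, Subgroup.mem_sInf] at hn ⊢
    intro N hN
    exact hN.1.conj_mem n (hn N hN) g
  have hbot : R = ⊥ := by
    by_contra hne
    have hidx := hJ.2 R hRn hne
    have hfi : R.FiniteIndex := ⟨hidx⟩
    have hfg : Group.FG R := Subgroup.fg_of_index_ne_zero R
    have hnt : (⊥ : Subgroup R) ≠ ⊤ := by
      intro h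
      apply hne
      rw [eq_bot_iff]
      intro x hx
      have h1 : (⟨x, hx⟩ : R) ∈ (⊥ : Subgroup R) := by rw [h]; trivial
      exact Subgroup.mem_bot.2 (congrArg Subtype.val (Subgroup.mem_bot.1 h1))
    obtain ⟨N', hN', hidx', -⟩ := exists_normal p (nil_of_subgroup R hnil) ⊥ hnt
    have hsub : (N'.map R.subtype).subgroupOf R = N' :=
      Subgroup.comap_map_eq_self_of_injective (Subgroup.subtype_injective R) N'
    have hNR : N'.map R.subtype ≤ R := Subgroup.map_subtype_le N'
    have hrel : (N'.map R.subtype).relIndex R = p := by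
      unfold Subgroup.relIndex
      rw [hsub, hidx']
    have hNidx : (N'.map R.subtype).index ≠ 0 := by
      rw [← Subgroup.relIndex_mul_index hNR, hrel]
      exact mul_ne_zero hp.out.ne_zero hidx
    have hNfi : (N'.map R.subtype).FiniteIndex := ⟨hNidx⟩
    have hcore : R ≤ (N'.map R.subtype).normalCore := by
      refine sInf_le ⟨Subgroup.normalCore_normal _, ?_⟩
      exact Subgroup.FiniteIndex.index_ne_zero
    have h1 : R ≤ N'.map R.subtype := hcore.trans (Subgroup.normalCore_le _)
    have h2 : (N'.map R.subtype).relIndex R = 1 := Subgroup.relIndex_eq_one.2 h1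
    rw [hrel] at h2
    exact hp.out.one_lt.ne' h2
  intro g hg
  by_contra hcon
  push Not at hcon
  apply hg
  have h1 : g ∈ R := by
    rw [hR, Subgroup.mem_sInf]
    intro N hN
    exact hcon N hN.1 hN.2
  rw [hbot] at h1
  exact Subgroup.mem_bot.1 h1

theorem locFin_iff (p : ℕ) [hp : Fact p.Prime] (K : Type) [Field K] [CharP K p] :
    (∀ (G : Type) [Group G], Nil K G → ∀ S : Finset G, Finite (Subgroup.closure (S : Set G))) ↔
    ∀ (J : Type) [Group J], Group.FG J → JustInf J → ResFin J → ¬ Nil K J := by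
  constructor
  · intro h J _ hfg hJ _ hnil
    obtain ⟨S, hS⟩ := Group.fg_def.1 hfg
    have h1 := h J hnil S
    rw [hS] at h1
    have h2 : Finite J := Subgroup.topEquiv.toEquiv.finite_iff.1 h1
    exact hJ.1.not_finite h2
  · intro h G _ hnil S
    by_contra hinf
    have hinf' : Infinite (Subgroup.closure (S : Set G)) := not_finite_iff_infinite.1 hinf
    have hfg : Group.FG (Subgroup.closure (S : Set G)) :=
      (Group.fg_iff_subgroup_fg (Subgroup.closure (S : Set G))).2 ⟨S, rfl⟩
    obtain ⟨N, hN, hJ⟩ := exists_justInf (Subgroup.closure (S : Set G))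
    have hnilH : Nil K (Subgroup.closure (S : Set G)) := nil_of_subgroup _ hnil
    have hnilJ : Nil K (Subgroup.closure (S : Set G) ⧸ N) :=
      hnilH.of_surjective (QuotientGroup.mk' N) (QuotientGroup.mk'_surjective N)
    have hfgJ : Group.FG (Subgroup.closure (S : Set G) ⧸ N) := inferInstance
    exact h _ hfgJ hJ (resFin_of_justInf p hnilJ hJ) hnilJ

end Pool.Agent.BBT
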