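import Pool.Agent.BBT.Naka
import Pool.Agent.Hhelper95.NilAug.Hankel

/-!
# Nil augmentation ideals and the layers of modules

Modules with layers of bounded dimension over a finite field, by words of matrix pencils.
-/

open Matrix
open scoped Pointwise

namespace Pool.Agent.BBT

open Pool.Agent.NilAm Pool.Agent.NilExt Pool.Agent.Hhelper95.NilAug

section defs

variable (F : Type*) {G V : Type*} [Field F] [Group G] [AddCommGroup V]
  [Module (MonoidAlgebra F G) V]

/-- The layers `ω ^ n V`. -/
noncomputable def lay (V : Type*) [AddCommGroup V] [Module (MonoidAlgebra F G) V] :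
    ℕ → Submodule (MonoidAlgebra F G) V
  | 0 => ⊤
  | (n + 1) => augSub F (lay V n)

end defs

variable {F K G V : Type*} [Field F] [Field K] [Algebra F K] [Group G] [AddCommGroup V]
  [Module F V] [Module (MonoidAlgebra F G) V] [IsScalarTower F (MonoidAlgebra F G) V]

theorem lay_succ_le (n : ℕ) : lay F (G := G) V (n + 1) ≤ lay F V n := augSub_le _

theorem lay_eq {n : ℕ} (h : lay F (G := G) V (n + 1) = lay F V n) (m : ℕ) :
    lay F (G := G) V (n + m) = lay F V n := by
  induction m with
  | zero => rfl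
  | succ m ih =>
    have h1 : lay F (G := G) V (n + (m + 1)) = augSub F (lay F V (n + m)) := rfl
    rw [h1, ih]
    exact h

/-- The layers of a finitely generated group are spanned by the `(s - 1) u`. -/
theorem lay_succ_span (S : Finset G) (hS : Subgroup.closure (S : Set G) = ⊤) (n : ℕ) (v : V)
    (hv : v ∈ lay F (G := G) V (n + 1)) :
    v ∈ Submodule.span F {y : V | ∃ s : S, ∃ u ∈ lay F (G := G) V n,
      y = (MonoidAlgebra.of F G s - 1) • u} := by
  set W := Submodule.span F {y : V | ∃ s : S, ∃ u ∈ lay F (G := G) V n,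
      y = (MonoidAlgebra.of F G s - 1) • u} with hW
  have key : ∀ g : G, ∀ u ∈ lay F (G := G) V n, (MonoidAlgebra.of F G g - 1) • u ∈ W := by
    intro g
    have hg : g ∈ Subgroup.closure (S : Set G) := by rw [hS]; trivial
    induction hg using Subgroup.closure_induction with
    | mem g hg =>
      intro u hu
      exact Submodule.subset_span ⟨⟨g, hg⟩, u, hu, rfl⟩
    | one => intro u _; rw [map_one, sub_self, zero_smul]; exact W.zero_mem
    | mul a b _ _ ha hb =>
      intro u hu
      have h : (MonoidAlgebra.of F G (a * b) - 1) • u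
          = (MonoidAlgebra.of F G a - 1) • (MonoidAlgebra.of F G b • u)
            + (MonoidAlgebra.of F G b - 1) • u := by
        rw [map_mul, sub_smul, sub_smul, sub_smul, mul_smul, one_smul, one_smul]
        abel
      rw [h]
      exact W.add_mem (ha _ (Submodule.smul_mem _ _ hu)) (hb u hu)
    | inv a _ ha =>
      intro u hu
      have h : (MonoidAlgebra.of F G a⁻¹ - 1) • u
          = -((MonoidAlgebra.of F G a - 1) • (MonoidAlgebra.of F G a⁻¹ • u)) := by
        rw [sub_smul, sub_smul, ← mul_smul, ← map_mul, mul_inv_cancel, map_one, one_smul, one_smul]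
        abel
      rw [h]
      exact W.neg_mem (ha _ (Submodule.smul_mem _ _ hu))
  have hinv : ∀ (a : MonoidAlgebra F G) (y : V), y ∈ W → a • y ∈ W := by
    intro a
    induction a using MonoidAlgebra.induction_on with
    | of h =>
      intro y hy
      induction hy using Submodule.span_induction with
      | mem y hy =>
        obtain ⟨s, u, hu, rfl⟩ := hy
        have h1 : MonoidAlgebra.of F G h • (MonoidAlgebra.of F G (s : G) - 1) • u
            = (MonoidAlgebra.of F G (h * s * h⁻¹) - 1) • (MonoidAlgebra.of F G h • u) := by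
          rw [← mul_smul, ← mul_smul, mul_sub, sub_mul, mul_one, one_mul, ← map_mul, ← map_mul]
          congr 3
          group
        rw [h1]
        exact key _ _ (Submodule.smul_mem _ _ hu)
      | zero => rw [smul_zero]; exact W.zero_mem
      | add x y _ _ hx hy => rw [smul_add]; exact W.add_mem hx hy
      | smul c y _ hy =>
        rw [smul_algebra_smul_comm c (MonoidAlgebra.of F G h) y]
        exact W.smul_mem _ hy
    | add x y hx hy => intro z hz; rw [add_smul]; exact W.add_mem (hx z hz) (hy z hz)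
    | smul r x hx => intro z hz; rw [smul_assoc]; exact W.smul_mem _ (hx z hz)
  have hv' : v ∈ augSub F (lay F (G := G) V n) := hv
  unfold augSub at hv'
  induction hv' using Submodule.span_induction with
  | mem y hy =>
    obtain ⟨g, u, hu, rfl⟩ := hy
    exact key g u hu
  | zero => exact W.zero_mem
  | add x y hx' hy' hx hy => exact W.add_mem (hx hx') (hy hy')
  | smul a y hy' hy => exact hinv a y (hy hy')

/-- The embedding of the group algebra over the small field. -/
noncomputable def emb (F K G : Type*) [Field F] [Field K] [Algebra F K] [Group G] :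
    MonoidAlgebra F G →ₐ[F] MonoidAlgebra K G :=
  MonoidAlgebra.lift F (MonoidAlgebra K G) G (MonoidAlgebra.of K G)

/-- Matrix coefficients, extended to the large field. -/
noncomputable def Lm {w : ℕ} (K : Type*) [Field K] [Algebra F K] (A : V →ₗ[F] (Fin w → F))
    (B : (Fin w → F) →ₗ[F] V) : MonoidAlgebra K G →ₗ[K] Matrix (Fin w) (Fin w) K :=
  (MonoidAlgebra.basis G K).constr K fun g =>
    (LinearMap.toMatrix' (A ∘ₗ Algebra.lsmul F F V (MonoidAlgebra.of F G g) ∘ₗ B)).map
      (algebraMap F K)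

theorem Lm_of {w : ℕ} (A : V →ₗ[F] (Fin w → F)) (B : (Fin w → F) →ₗ[F] V) (g : G) :
    Lm K A B (MonoidAlgebra.of K G g)
      = (LinearMap.toMatrix' (A ∘ₗ Algebra.lsmul F F V (MonoidAlgebra.of F G g) ∘ₗ B)).map
        (algebraMap F K) := by
  have h1 : MonoidAlgebra.of K G g = MonoidAlgebra.basis G K g := by
    rw [MonoidAlgebra.basis_apply]
    rfl
  rw [h1]
  exact Module.Basis.constr_basis _ _ _ _

theorem Lm_emb {w : ℕ} (A : V →ₗ[F] (Fin w → F)) (B : (Fin w → F) →ₗ[F] V)
    (z : MonoidAlgebra F G) :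
    Lm K A B (emb F K G z)
      = (LinearMap.toMatrix' (A ∘ₗ Algebra.lsmul F F V z ∘ₗ B)).map (algebraMap F K) := by
  induction z using MonoidAlgebra.induction_on with
  | of g =>
    have h1 : emb F K G (MonoidAlgebra.of F G g) = MonoidAlgebra.of K G g := by
      unfold emb
      rw [MonoidAlgebra.lift_of]
    rw [h1, Lm_of]
  | add x y hx hy =>
    rw [map_add, map_add, hx, hy, map_add, LinearMap.add_comp, LinearMap.comp_add, map_add]
    exact (Matrix.map_add _ (map_add _) _ _).symm
  | smul r x hx =>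
    have h1 : emb F K G (r • x) = algebraMap F K r • emb F K G x := by
      rw [map_smul, algebraMap_smul]
    rw [h1, map_smul, hx, map_smul (Algebra.lsmul F F V), LinearMap.smul_comp,
      LinearMap.comp_smul, map_smul LinearMap.toMatrix']
    ext i j
    simp [Matrix.map_apply]

/-- Coordinates on the layers up to `n`. -/
structure Good {w : ℕ} (E : ℕ → (V →ₗ[F] (Fin w → F))) (R : ℕ → ((Fin w → F) →ₗ[F] V))
    (G : Type*) [Group G] [Module (MonoidAlgebra F G) V] (n : ℕ) : Prop where
  ker : ∀ j ≤ n, ∀ v ∈ lay F (G := G) V j, E j v = 0 → v ∈ lay F (G := G) V (j + 1)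
  zero : ∀ j ≤ n, ∀ v ∈ lay F (G := G) V (j + 1), E j v = 0
  mem : ∀ j ≤ n, ∀ u, R j u ∈ lay F (G := G) V j
  sec : ∀ j ≤ n, ∀ v ∈ lay F (G := G) V j, E j (R j (E j v)) = E j v

/-- The letters of the word attached to a module. -/
noncomputable def lett {w : ℕ} (S : Finset G) (E : ℕ → (V →ₗ[F] (Fin w → F)))
    (R : ℕ → ((Fin w → F) →ₗ[F] V)) (j : ℕ) (s : S) : Matrix (Fin w) (Fin w) F :=
  LinearMap.toMatrix' (E (j + 1) ∘ₗ Algebra.lsmul F F V (MonoidAlgebra.of F G (s : G) - 1) ∘ₗ R j)

theorem Good.step {w n : ℕ} {E : ℕ → (V →ₗ[F] (Fin w → F))} {R : ℕ → ((Fin w → F) →ₗ[F] V)}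
    (hg : Good E R G n) (S : Finset G) {j : ℕ} (hj : j + 1 ≤ n) (s : S) (v : V)
    (hv : v ∈ lay F (G := G) V j) :
    E (j + 1) ((MonoidAlgebra.of F G (s : G) - 1) • v) = lett S E R j s *ᵥ E j v := by
  have h1 : lett S E R j s *ᵥ E j v
      = E (j + 1) ((MonoidAlgebra.of F G (s : G) - 1) • R j (E j v)) := by
    unfold lett
    rw [LinearMap.toMatrix'_mulVec]
    rfl
  rw [h1, ← sub_eq_zero, ← map_sub, ← smul_sub]
  refine hg.zero (j + 1) hj _ ?_
  refine Submodule.subset_span ⟨s, _, ?_, rfl⟩
  refine hg.ker j (by omega) _ (Submodule.sub_mem _ hv (hg.mem j (by omega) _)) ?_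
  rw [map_sub, hg.sec j (by omega) v hv, sub_self]

/-- Elements of the large group algebra that map layer `i` to layer `j`. -/
noncomputable def Ysub (F K G V : Type*) [Field F] [Field K] [Algebra F K] [Group G]
    [AddCommGroup V] [Module (MonoidAlgebra F G) V] (i j : ℕ) :
    Submodule K (MonoidAlgebra K G) :=
  Submodule.span K {y | ∃ z : MonoidAlgebra F G, (∀ v ∈ lay F (G := G) V i,
    z • v ∈ lay F (G := G) V j) ∧ y = emb F K G z}

theorem emb_of_sub (s : G) : emb F K G (MonoidAlgebra.of F G s - 1) = MonoidAlgebra.of K G s - 1 := by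
  rw [map_sub, map_one]
  congr 1
  unfold emb
  rw [MonoidAlgebra.lift_of]

theorem Good.step_vel {w n : ℕ} {E : ℕ → (V →ₗ[F] (Fin w → F))} {R : ℕ → ((Fin w → F) →ₗ[F] V)}
    (hg : Good E R G n) (S : Finset G) {i j : ℕ} (hij : i ≤ j) (hj : j + 1 ≤ n) (x : S → K)
    (y : MonoidAlgebra K G) (hy : y ∈ Ysub F K G V i j) :
    vel S x * y ∈ Ysub F K G V i (j + 1) ∧
      Lm K (E (j + 1)) (R i) (vel S x * y) = mat (lett S E R j) x * Lm K (E j) (R i) y := by
  unfold Ysub at hy
  induction hy using Submodule.span_induction with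
  | mem y hy =>
    obtain ⟨z, hz, rfl⟩ := hy
    have h0 : vel S x * emb F K G z
        = ∑ s : S, x s • emb F K G ((MonoidAlgebra.of F G (s : G) - 1) * z) := by
      unfold vel
      rw [Finset.sum_mul]
      refine Finset.sum_congr rfl fun s _ => ?_
      rw [map_mul, emb_of_sub, smul_mul_assoc]
    constructor
    · rw [h0]
      refine Submodule.sum_mem _ fun s _ => Submodule.smul_mem _ _ (Submodule.subset_span
        ⟨_, fun v hv => ?_, rfl⟩)
      rw [mul_smul]
      exact Submodule.subset_span ⟨s, _, hz v hv, rfl⟩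
    · rw [h0, map_sum]
      unfold Hhelper95.NilAug.mat
      rw [Finset.sum_mul]
      refine Finset.sum_congr rfl fun s _ => ?_
      rw [map_smul, smul_mul_assoc]
      congr 1
      rw [Lm_emb, Lm_emb]
      have h1 : E (j + 1) ∘ₗ Algebra.lsmul F F V ((MonoidAlgebra.of F G (s : G) - 1) * z) ∘ₗ R i
          = (E (j + 1) ∘ₗ Algebra.lsmul F F V (MonoidAlgebra.of F G (s : G) - 1) ∘ₗ R j) ∘ₗ
            (E j ∘ₗ Algebra.lsmul F F V z ∘ₗ R i) := by
        refine LinearMap.ext fun u => ?_
        change E (j + 1) (((MonoidAlgebra.of F G (s : G) - 1) * z) • R i u)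
          = E (j + 1) ((MonoidAlgebra.of F G (s : G) - 1) • R j (E j (z • R i u)))
        have h2 := hg.step S hj s (z • R i u) (hz _ (hg.mem i (by omega) u))
        have h3 : lett S E R j s *ᵥ E j (z • R i u)
            = E (j + 1) ((MonoidAlgebra.of F G (s : G) - 1) • R j (E j (z • R i u))) := by
          unfold lett
          rw [LinearMap.toMatrix'_mulVec]
          rfl
        rw [mul_smul, h2, h3]
      rw [h1, LinearMap.toMatrix'_comp, Matrix.map_mul]
      rfl
  | zero => rw [mul_zero, map_zero, map_zero, mul_zero]; exact ⟨Submodule.zero_mem _, rfl⟩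
  | add a b _ _ ha hb =>
    rw [mul_add, map_add, map_add, ha.2, hb.2, mul_add]
    exact ⟨Submodule.add_mem _ ha.1 hb.1, rfl⟩
  | smul c a _ ha =>
    rw [mul_smul_comm, map_smul, map_smul, ha.2, mul_smul_comm]
    exact ⟨Submodule.smul_mem _ _ ha.1, rfl⟩

theorem Good.word {w n : ℕ} {E : ℕ → (V →ₗ[F] (Fin w → F))} {R : ℕ → ((Fin w → F) →ₗ[F] V)}
    (hg : Good E R G n) (S : Finset G) (i : ℕ) (x : ℕ → S → K) (l : ℕ) (hl : i + l ≤ n) :
    Vp S x l ∈ Ysub F K G V i (i + l) ∧
      Lm K (E (i + l)) (R i) (Vp S x l)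
        = Pr (fun j => lett S E R (i + j)) x l * Lm K (E i) (R i) (1 : MonoidAlgebra K G) := by
  induction l with
  | zero =>
    refine ⟨Submodule.subset_span ⟨1, fun v hv => by rw [one_smul]; exact hv, ?_⟩, ?_⟩
    · rw [map_one]
      rfl
    · change Lm K (E i) (R i) 1 = 1 * _
      rw [one_mul]
  | succ l ih =>
    obtain ⟨h1, h2⟩ := ih (by omega)
    obtain ⟨h3, h4⟩ := hg.step_vel S (Nat.le_add_right i l) (by omega) (x l) _ h1
    refine ⟨h3, ?_⟩
    change Lm K (E (i + l + 1)) (R i) (vel S (x l) * Vp S x l) = _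
    rw [h4, h2, Pr_succ, Matrix.mul_assoc]

theorem Good.zero_of {w n : ℕ} {E : ℕ → (V →ₗ[F] (Fin w → F))} {R : ℕ → ((Fin w → F) →ₗ[F] V)}
    (hg : Good E R G n) (S : Finset G) (i : ℕ) (x : ℕ → S → K) (l : ℕ) (hl : i + (l + 1) ≤ n)
    (hx : Vp S x (l + 1) = 0) : Pr (fun j => lett S E R (i + j)) x (l + 1) = 0 := by
  obtain ⟨-, h2⟩ := hg.word S i x (l + 1) hl
  rw [hx, map_zero] at h2
  have h3 : Pr (fun j => lett S E R (i + j)) x (l + 1)
      = Pr (fun j => lett S E R (i + j)) x (l + 1) *
        Lm K (E i) (R i) (1 : MonoidAlgebra K G) := by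
    have h4 : Lm K (E i) (R i) (1 : MonoidAlgebra K G)
        = (LinearMap.toMatrix' (E i ∘ₗ R i)).map (algebraMap F K) := by
      rw [← map_one (MonoidAlgebra.of K G), Lm_of, map_one, map_one]
      rfl
    rw [Nat.add_comm l 1, Pr_add, Matrix.mul_assoc]
    congr 1
    rw [h4]
    change mat (fun s => lett S E R (i + 0) s) (x 0) * 1
      = mat (fun s => lett S E R (i + 0) s) (x 0) * 1 * _
    rw [Matrix.mul_one]
    unfold Hhelper95.NilAug.mat
    rw [Finset.sum_mul]
    refine Finset.sum_congr rfl fun s _ => ?_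
    rw [smul_mul_assoc]
    congr 1
    have h5 : (E (i + 1) ∘ₗ Algebra.lsmul F F V (MonoidAlgebra.of F G (s : G) - 1) ∘ₗ R i) ∘ₗ
        (E i ∘ₗ R i)
        = E (i + 1) ∘ₗ Algebra.lsmul F F V (MonoidAlgebra.of F G (s : G) - 1) ∘ₗ R i := by
      refine LinearMap.ext fun u => ?_
      change E (i + 1) ((MonoidAlgebra.of F G (s : G) - 1) • R i (E i (R i u)))
        = E (i + 1) ((MonoidAlgebra.of F G (s : G) - 1) • R i u)
      rw [← sub_eq_zero, ← map_sub, ← smul_sub]
      refine hg.zero (i + 1) (by omega) _ ?_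
      refine Submodule.subset_span ⟨s, _, ?_, rfl⟩
      refine hg.ker i (by omega) _ (Submodule.sub_mem _ (hg.mem i (by omega) _)
        (hg.mem i (by omega) _)) ?_
      rw [map_sub, hg.sec i (by omega) _ (hg.mem i (by omega) _), sub_self]
    have h6 : lett S E R i s * LinearMap.toMatrix' (E i ∘ₗ R i) = lett S E R i s := by
      unfold lett
      rw [← LinearMap.toMatrix'_comp, h5]
    change (lett S E R i s).map (algebraMap F K) = (lett S E R i s).map (algebraMap F K) * _
    rw [← Matrix.map_mul, h6]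
  rw [h3, ← h2]

end Pool.Agent.BBT
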