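import Pool.Agent.BBT.Layer

/-!
# Nil augmentation ideals: modules with bounded layers
-/

open Matrix
open scoped Pointwise

namespace Pool.Agent.BBT

open Pool.Agent.NilAm Pool.Agent.NilExt Pool.Agent.Hhelper95.NilAug

universe v

section linalg

variable {F V : Type*} [Field F] [AddCommGroup V] [Module F V]

theorem exists_coord {w : ℕ} (W W' : Submodule F V)
    (h : Module.rank F (W ⧸ W'.submoduleOf W) ≤ w) :
    ∃ (E : V →ₗ[F] (Fin w → F)) (R : (Fin w → F) →ₗ[F] V), (∀ v ∈ W, E v = 0 → v ∈ W') ∧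
      (∀ v ∈ W, v ∈ W' → E v = 0) ∧ (∀ u, R u ∈ W) ∧ ∀ v ∈ W, E (R (E v)) = E v := by
  have hfin : Module.Finite F (W ⧸ W'.submoduleOf W) :=
    Module.rank_lt_aleph0_iff.1 (h.trans_lt (Cardinal.natCast_lt_aleph0))
  have hd : Module.finrank F (W ⧸ W'.submoduleOf W) ≤ w := Module.finrank_le_of_rank_le h
  let b := Module.finBasis F (W ⧸ W'.submoduleOf W)
  let ι : (W ⧸ W'.submoduleOf W) →ₗ[F] (Fin w → F) :=
    (Function.ExtendByZero.linearMap F (Fin.castLE hd)) ∘ₗ b.equivFun.toLinearMap
  have hι : Function.Injective ι := by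
    intro x y hxy
    apply b.equivFun.injective
    funext i
    have := congrFun hxy (Fin.castLE hd i)
    change Function.extend (Fin.castLE hd) (b.equivFun x) 0 (Fin.castLE hd i)
      = Function.extend (Fin.castLE hd) (b.equivFun y) 0 (Fin.castLE hd i) at this
    rwa [(Fin.castLE_injective hd).extend_apply, (Fin.castLE_injective hd).extend_apply] at this
  obtain ⟨ρ, hρ⟩ := ι.exists_leftInverse_of_injective (LinearMap.ker_eq_bot.2 hι)
  obtain ⟨σ, hσ⟩ := (W'.submoduleOf W).mkQ.exists_rightInverse_of_surjective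
    (LinearMap.range_eq_top.2 (Submodule.mkQ_surjective _))
  obtain ⟨E, hE⟩ := (ι ∘ₗ (W'.submoduleOf W).mkQ).exists_extend
  have hE' : ∀ v (hv : v ∈ W), E v = ι ((W'.submoduleOf W).mkQ ⟨v, hv⟩) := fun v hv =>
    LinearMap.congr_fun hE ⟨v, hv⟩
  refine ⟨E, W.subtype ∘ₗ σ ∘ₗ ρ, ?_, ?_, fun u => (σ (ρ u)).2, ?_⟩
  · intro v hv h0
    rw [hE' v hv] at h0
    have h1 := hι (h0.trans (map_zero ι).symm)
    have h2 := (Submodule.Quotient.mk_eq_zero _).1 h1
    exact h2
  · intro v hv hv'
    rw [hE' v hv]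
    have h2 : (W'.submoduleOf W).mkQ ⟨v, hv⟩ = 0 :=
      (Submodule.Quotient.mk_eq_zero _).2 hv'
    rw [h2, map_zero]
  · intro v hv
    change E ((σ (ρ (E v)) : W) : V) = E v
    rw [hE' _ (σ (ρ (E v))).2]
    have h1 : (W'.submoduleOf W).mkQ (σ (ρ (E v))) = ρ (E v) := LinearMap.congr_fun hσ _
    change ι ((W'.submoduleOf W).mkQ (σ (ρ (E v)))) = E v
    rw [h1, hE' v hv]
    exact congrArg ι (LinearMap.congr_fun hρ _)

end linalg

variable {F K G V : Type*} [Field F] [Field K] [Algebra F K] [Group G] [AddCommGroup V]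
  [Module F V] [Module (MonoidAlgebra F G) V] [IsScalarTower F (MonoidAlgebra F G) V]

/-- The dimension over `F` of the layer `ω ^ n V / ω ^ (n + 1) V`. -/
noncomputable def layRank (F : Type*) (G V : Type*) [Field F] [Group G] [AddCommGroup V]
    [Module F V] [Module (MonoidAlgebra F G) V] [IsScalarTower F (MonoidAlgebra F G) V]
    (n : ℕ) : Cardinal :=
  Module.rank F (((lay F (G := G) V n).restrictScalars F) ⧸
    ((lay F (G := G) V (n + 1)).restrictScalars F).submoduleOf
      ((lay F (G := G) V n).restrictScalars F))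

theorem exists_good {w : ℕ} (n : ℕ) (h : ∀ j ≤ n, layRank F G V j ≤ w) :
    ∃ (E : ℕ → (V →ₗ[F] (Fin w → F))) (R : ℕ → ((Fin w → F) →ₗ[F] V)), Good E R G n := by
  have key : ∀ j, ∃ (E : V →ₗ[F] (Fin w → F)) (R : (Fin w → F) →ₗ[F] V), j ≤ n →
      (∀ v ∈ lay F (G := G) V j, E v = 0 → v ∈ lay F (G := G) V (j + 1)) ∧
      (∀ v ∈ lay F (G := G) V (j + 1), E v = 0) ∧ (∀ u, R u ∈ lay F (G := G) V j) ∧
      ∀ v ∈ lay F (G := G) V j, E (R (E v)) = E v := by
    intro j
    by_cases hj : j ≤ n
    · obtain ⟨E, R, h1, h2, h3, h4⟩ := exists_coord _ _ (h j hj)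
      exact ⟨E, R, fun _ => ⟨h1, fun v hv => h2 v (lay_succ_le j hv) hv, h3, h4⟩⟩
    · exact ⟨0, 0, fun h => absurd h hj⟩
  choose E R hER using key
  exact ⟨E, R, ⟨fun j hj => (hER j hj).1, fun j hj => (hER j hj).2.1,
    fun j hj => (hER j hj).2.2.1, fun j hj => (hER j hj).2.2.2⟩⟩

theorem mat_single {w : ℕ} (S : Finset G) [DecidableEq S] (a : S → Matrix (Fin w) (Fin w) F)
    (s : S) : Hhelper95.NilAug.mat a (Pi.single s (1 : K)) = (a s).map (algebraMap F K) := by
  unfold Hhelper95.NilAug.mat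
  rw [Finset.sum_eq_single s]
  · rw [Pi.single_eq_same, one_smul]
  · intro t _ ht
    rw [Pi.single_eq_of_ne ht, zero_smul]
  · intro h
    exact absurd (Finset.mem_univ _) h

/-- The layer `j` is reached by products of pencils. -/
theorem Good.path {w n : ℕ} {E : ℕ → (V →ₗ[F] (Fin w → F))} {R : ℕ → ((Fin w → F) →ₗ[F] V)}
    (hg : Good E R G n) (S : Finset G) (hS : Subgroup.closure (S : Set G) = ⊤) (j : ℕ)
    (hj : j ≤ n) : ∀ v ∈ lay F (G := G) V j, (fun t => algebraMap F K (E j v t)) ∈
      Submodule.span K {y : Fin w → K | ∃ (x : ℕ → S → K) (c : Fin w → K),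
        y = Pr (lett S E R) x j *ᵥ c} := by
  classical
  induction j with
  | zero =>
    intro v _
    refine Submodule.subset_span ⟨0, fun t => algebraMap F K (E 0 v t), ?_⟩
    change _ = (1 : Matrix (Fin w) (Fin w) K) *ᵥ _
    rw [Matrix.one_mulVec]
  | succ j ih =>
    intro v hv
    have hv' := lay_succ_span S hS j v hv
    induction hv' using Submodule.span_induction with
    | mem y hy =>
      obtain ⟨s, u, hu, rfl⟩ := hy
      rw [hg.step S hj s u hu]
      have h1 : (fun t => algebraMap F K ((lett S E R j s *ᵥ E j u) t))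
          = (lett S E R j s).map (algebraMap F K) *ᵥ (fun t => algebraMap F K (E j u t)) :=
        (map_mulVec_cast _ _).symm
      rw [h1]
      have h2 := ih (by omega) u hu
      have h3 : ∀ z ∈ Submodule.span K {y : Fin w → K | ∃ (x : ℕ → S → K) (c : Fin w → K),
          y = Pr (lett S E R) x j *ᵥ c}, (lett S E R j s).map (algebraMap F K) *ᵥ z ∈
          Submodule.span K {y : Fin w → K | ∃ (x : ℕ → S → K) (c : Fin w → K),
          y = Pr (lett S E R) x (j + 1) *ᵥ c} := by
        intro z hz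
        induction hz using Submodule.span_induction with
        | mem z hz =>
          obtain ⟨x, c, rfl⟩ := hz
          refine Submodule.subset_span
            ⟨fun i => if i = j then Pi.single s 1 else x i, c, ?_⟩
          rw [Pr_succ, if_pos rfl, mat_single, ← Matrix.mulVec_mulVec]
          congr 2
          refine Pr_congr (fun _ _ => rfl) fun i hi => ?_
          rw [if_neg (by omega)]
        | zero => rw [Matrix.mulVec_zero]; exact Submodule.zero_mem _
        | add a b _ _ ha hb => rw [Matrix.mulVec_add]; exact Submodule.add_mem _ ha hb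
        | smul c a _ ha => rw [Matrix.mulVec_smul]; exact Submodule.smul_mem _ _ ha
      exact h3 _ h2
    | zero =>
      rw [map_zero]
      have : (fun t => algebraMap F K ((0 : Fin w → F) t)) = 0 := by
        funext t
        exact map_zero _
      rw [this]
      exact Submodule.zero_mem _
    | add a b ha' hb' ha hb =>
      have hsub : Submodule.span F {y : V | ∃ s : S, ∃ u ∈ lay F (G := G) V j,
          y = (MonoidAlgebra.of F G s - 1) • u} ≤ (lay F (G := G) V (j + 1)).restrictScalars F := by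
        refine Submodule.span_le.2 ?_
        rintro y ⟨s, u, hu, rfl⟩
        exact Submodule.subset_span ⟨s, u, hu, rfl⟩
      have h1 := ha (hsub ha')
      have h2 := hb (hsub hb')
      have h3 : (fun t => algebraMap F K (E (j + 1) (a + b) t))
          = (fun t => algebraMap F K (E (j + 1) a t)) + fun t => algebraMap F K (E (j + 1) b t) := by
        funext t
        rw [map_add, Pi.add_apply, map_add, Pi.add_apply]
      rw [h3]
      exact Submodule.add_mem _ h1 h2
    | smul c a ha' ha =>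
      have hsub : Submodule.span F {y : V | ∃ s : S, ∃ u ∈ lay F (G := G) V j,
          y = (MonoidAlgebra.of F G s - 1) • u} ≤ (lay F (G := G) V (j + 1)).restrictScalars F := by
        refine Submodule.span_le.2 ?_
        rintro y ⟨s, u, hu, rfl⟩
        exact Submodule.subset_span ⟨s, u, hu, rfl⟩
      have h1 := ha (hsub ha')
      have h3 : (fun t => algebraMap F K (E (j + 1) (c • a) t))
          = algebraMap F K c • fun t => algebraMap F K (E (j + 1) a t) := by
        funext t
        rw [map_smul, Pi.smul_apply, smul_eq_mul, map_mul, Pi.smul_apply, smul_eq_mul]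
      rw [h3]
      exact Submodule.smul_mem _ _ h1

/-- Words that come from modules. -/
def Fc (F : Type*) [Field F] {G : Type*} [Group G] (S : Finset G) (w : ℕ)
    (a : ℕ → S → Matrix (Fin w) (Fin w) F) (l : ℕ) : Prop :=
  ∃ (V : Type v) (_ : AddCommGroup V) (_ : Module F V) (_ : Module (MonoidAlgebra F G) V)
    (_ : IsScalarTower F (MonoidAlgebra F G) V) (E : ℕ → (V →ₗ[F] (Fin w → F)))
    (R : ℕ → ((Fin w → F) →ₗ[F] V)) (n i : ℕ), Good E R G n ∧ i + l ≤ n ∧
      ∀ j < l, a j = lett S E R (i + j)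

theorem Fc_sub {S : Finset G} {w : ℕ} (a : ℕ → S → Matrix (Fin w) (Fin w) F) (i l n : ℕ)
    (h : Fc.{v} F S w a n) (hil : i + l ≤ n) : Fc.{v} F S w (fun j => a (i + j)) l := by
  obtain ⟨V, _, _, _, _, E, R, m, i₀, hg, hm, ha⟩ := h
  refine ⟨V, _, _, _, inferInstance, E, R, m, i₀ + i, hg, by omega, ?_⟩
  intro j hj
  change a (i + j) = _
  rw [ha (i + j) (by omega), Nat.add_assoc]

theorem Fc_zero {S : Finset G} {w : ℕ} (a : ℕ → S → Matrix (Fin w) (Fin w) F) (l : ℕ)
    (h : Fc.{v} F S w a (l + 1)) (x : ℕ → S → K) (hx : Vp S x (l + 1) = 0) :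
    Pr a x (l + 1) = 0 := by
  obtain ⟨V, _, _, _, _, E, R, m, i₀, hg, hm, ha⟩ := h
  rw [Pr_congr (a' := fun j => lett S E R (i₀ + j)) (x' := x) ha (fun _ _ => rfl)]
  exact hg.zero_of S i₀ x l hm hx

theorem core [Finite F] [Infinite K] (hnil : Nil K G) (S : Finset G)
    (hS : Subgroup.closure (S : Set G) = ⊤) (w : ℕ) :
    ∃ N : ℕ, ∀ (V : Type v) [AddCommGroup V] [Module F V] [Module (MonoidAlgebra F G) V]
      [IsScalarTower F (MonoidAlgebra F G) V], (∀ j ≤ N, layRank F G V j ≤ w) →
      lay F (G := G) V (N + 1) = lay F V N := by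
  by_contra hcon
  push Not at hcon
  have hne : ∀ l, ∃ a, Fc.{v} F S w a l ∧ ∃ x : ℕ → S → K, Pr a x l ≠ 0 := by
    intro l
    obtain ⟨V, i1, i2, i3, i4, hrk, hlay⟩ := hcon l
    obtain ⟨E, R, hg⟩ := exists_good (G := G) l hrk
    refine ⟨lett S E R, ⟨V, i1, i2, i3, i4, E, R, l, 0, hg, by omega,
      fun j _ => by rw [Nat.zero_add]⟩, ?_⟩
    by_contra hall
    push Not at hall
    apply hlay
    refine le_antisymm (lay_succ_le l) fun v hv => ?_
    refine hg.ker l le_rfl v hv ?_
    have h1 := hg.path (K := K) S hS l le_rfl v hv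
    have h2 : {y : Fin w → K | ∃ (x : ℕ → S → K) (c : Fin w → K),
        y = Pr (lett S E R) x l *ᵥ c} ⊆ {0} := by
      rintro y ⟨x, c, rfl⟩
      rw [hall x, Matrix.zero_mulVec]
      rfl
    have h3 := Submodule.span_mono h2 h1
    rw [Submodule.span_zero_singleton, Submodule.mem_bot] at h3
    funext t
    exact (map_eq_zero _).1 (congrFun h3 t)
  obtain ⟨M, ξ, hM, hper, hξ⟩ := exists_periodic (K := K) (Fc.{v} F S w)
    (fun a i l n h hil => Fc_sub a i l n h hil) hne
  have hmem : Vp S ξ (2 * M) ∈ augIdeal K G := by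
    obtain ⟨n, hn⟩ : ∃ n, 2 * M = n + 1 := ⟨2 * M - 1, by omega⟩
    rw [hn]
    exact Vp_mem S ξ n
  obtain ⟨k, hk⟩ := hnil _ hmem
  obtain ⟨a, ha, hne2⟩ := hξ k
  apply hne2
  obtain ⟨n, hn⟩ : ∃ n, 2 * M * (k + 1) = n + 1 :=
    ⟨2 * M * (k + 1) - 1, by
      have : 0 < 2 * M * (k + 1) := by positivity
      omega⟩
  rw [hn] at ha ⊢
  apply Fc_zero a n ha ξ
  rw [← hn, Vp_periodic S ξ (2 * M) hper, pow_succ, hk, zero_mul]

theorem coeff_emb (z : MonoidAlgebra F G) (g : G) :
    (emb F K G z).coeff g = algebraMap F K (z.coeff g) := by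
  classical
  induction z using MonoidAlgebra.induction_on with
  | of h =>
    have h1 : emb F K G (MonoidAlgebra.of F G h) = MonoidAlgebra.of K G h := by
      unfold emb
      rw [MonoidAlgebra.lift_of]
    rw [h1]
    by_cases hgh : h = g
    · subst hgh
      simp
    · simp [hgh]
  | add x y hx hy =>
    rw [map_add, MonoidAlgebra.coeff_add, MonoidAlgebra.coeff_add, Finsupp.add_apply,
      Finsupp.add_apply, hx, hy, map_add]
  | smul r x hx =>
    have h1 : emb F K G (r • x) = algebraMap F K r • emb F K G x := by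
      rw [map_smul, algebraMap_smul]
    rw [h1, MonoidAlgebra.coeff_smul, MonoidAlgebra.coeff_smul, Finsupp.smul_apply,
      Finsupp.smul_apply, hx, smul_eq_mul, smul_eq_mul, map_mul]

theorem nil_of_subfield (hnil : Nil K G) : Nil F G := by
  intro x hx
  have h1 : emb F K G x ∈ augIdeal K G := by
    unfold augIdeal Ideal.span at hx
    induction hx using Submodule.span_induction with
    | mem y hy =>
      obtain ⟨g, rfl⟩ := hy
      rw [emb_of_sub]
      exact of_sub_one_mem g
    | zero => rw [map_zero]; exact Ideal.zero_mem _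
    | add a b _ _ ha hb => rw [map_add]; exact Ideal.add_mem _ ha hb
    | smul a y _ hy => rw [smul_eq_mul, map_mul]; exact Ideal.mul_mem_left _ _ hy
  obtain ⟨k, hk⟩ := hnil _ h1
  refine ⟨k, ?_⟩
  ext g
  have h2 := coeff_emb (K := K) (x ^ k) g
  rw [map_pow, hk] at h2
  have h3 : algebraMap F K ((x ^ k).coeff g) = 0 := by
    rw [← h2]
    simp
  have h4 := (map_eq_zero _).1 h3
  rw [h4]
  simp

theorem lay_fg [Group.FG G] [Module.Finite (MonoidAlgebra F G) V] (n : ℕ) :
    (lay F (G := G) V n).FG := by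
  induction n with
  | zero => exact Module.Finite.fg_top
  | succ n ih => exact augSub_fg ih

theorem Good.spans {w n : ℕ} {E : ℕ → (V →ₗ[F] (Fin w → F))} {R : ℕ → ((Fin w → F) →ₗ[F] V)}
    (hg : Good E R G n) (m : ℕ) (hm : m ≤ n + 1) : ∃ T : Finset V, T.card ≤ w * m ∧
      ∀ v : V, ∃ u ∈ Submodule.span F (T : Set V), v - u ∈ lay F (G := G) V m := by
  classical
  induction m with
  | zero => exact ⟨∅, by simp, fun v => ⟨0, Submodule.zero_mem _, trivial⟩⟩
  | succ m ih =>
    obtain ⟨T, hT, hTs⟩ := ih (by omega)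
    refine ⟨T ∪ Finset.univ.image (fun t : Fin w => R m (Pi.single t 1)), ?_, fun v => ?_⟩
    · refine (Finset.card_union_le _ _).trans ?_
      have h1 : (Finset.univ.image (fun t : Fin w => R m (Pi.single t 1))).card ≤ w :=
        Finset.card_image_le.trans (by simp)
      rw [mul_add, mul_one]
      omega
    · obtain ⟨u, hu, hv⟩ := hTs v
      refine ⟨u + R m (E m (v - u)), Submodule.add_mem _ ?_ ?_, ?_⟩
      · exact Submodule.span_mono (by intro x hx; simp only [Finset.coe_union]; exact Or.inl hx) hu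
      · have h2 : E m (v - u) = ∑ t, (E m (v - u) t) • (Pi.single t (1 : F) : Fin w → F) := by
          funext i
          simp [Finset.sum_apply, Pi.single_apply]
        rw [h2, map_sum]
        refine Submodule.sum_mem _ fun t _ => ?_
        rw [map_smul]
        refine Submodule.smul_mem _ _ (Submodule.subset_span ?_)
        rw [Finset.coe_union]
        exact Or.inr (by simp)
      · have h3 : v - (u + R m (E m (v - u))) = (v - u) - R m (E m (v - u)) := by abel
        rw [h3]
        refine hg.ker m (by omega) _ (Submodule.sub_mem _ hv (hg.mem m (by omega) _)) ?_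
        rw [map_sub, hg.sec m (by omega) _ hv, sub_self]

/-- **Bounded layers.** -/
theorem bounded_layers [Finite F] [Infinite K] (hnil : Nil K G) [hG : Group.FG G] (w : ℕ) :
    ∃ N : ℕ, ∀ (V : Type v) [AddCommGroup V] [Module F V] [Module (MonoidAlgebra F G) V]
      [IsScalarTower F (MonoidAlgebra F G) V], Module.Finite (MonoidAlgebra F G) V →
      (∀ j, layRank F G V j ≤ w) → Module.Finite F V ∧ Module.finrank F V ≤ N := by
  obtain ⟨S, hS⟩ := Group.fg_def.1 hG
  obtain ⟨N, hN⟩ := core.{v} (F := F) hnil S hS w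
  refine ⟨w * N, fun V _ _ _ _ hfin hrk => ?_⟩
  have h1 := hN V fun j _ => hrk j
  have h2 : lay F (G := G) V N = ⊥ := naka (nil_of_subfield hnil) _ (lay_fg N) h1.ge
  obtain ⟨E, R, hg⟩ := exists_good (G := G) N fun j _ => hrk j
  obtain ⟨T, hT, hTs⟩ := hg.spans N (by omega)
  have h3 : Submodule.span F (T : Set V) = ⊤ := by
    refine (Submodule.eq_top_iff').2 fun v => ?_
    obtain ⟨u, hu, hv⟩ := hTs v
    rw [h2, Submodule.mem_bot, sub_eq_zero] at hv
    rw [hv]
    exact hu
  have h4 : Module.Finite F V := ⟨⟨T, h3⟩⟩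
  refine ⟨h4, ?_⟩
  have h5 := finrank_span_finset_le_card (R := F) T
  unfold Set.finrank at h5
  rw [h3, finrank_top] at h5
  exact h5.trans hT

end Pool.Agent.BBT
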