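import Pool.Agent.NilExt.Nil

/-!
# Nakayama's lemma for group algebras with nil augmentation ideal
-/

namespace Pool.Agent.BBT

open Pool.Agent.NilAm Pool.Agent.NilExt

variable {K G V : Type*} [Field K] [Group G] [AddCommGroup V] [Module (MonoidAlgebra K G) V]

/-- The augmentation ideal is closed under multiplication from the right. -/
theorem aug_mul_right {x : MonoidAlgebra K G} (hx : x ∈ augIdeal K G) (a : MonoidAlgebra K G) :
    x * a ∈ augIdeal K G := by
  obtain ⟨c, hc⟩ := sub_mem a
  have h : x * a = x * (a - algebraMap K (MonoidAlgebra K G) c)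
      + algebraMap K (MonoidAlgebra K G) c * x := by
    rw [mul_sub, Algebra.commutes c x]
    abel
  rw [h]
  exact Ideal.add_mem _ (Ideal.mul_mem_left _ _ hc) (Ideal.mul_mem_left _ _ hx)

/-- The submodule generated by all `(g - 1) u`, `u ∈ N`. -/
noncomputable def augSub (K : Type*) {G V : Type*} [Field K] [Group G] [AddCommGroup V]
    [Module (MonoidAlgebra K G) V] (N : Submodule (MonoidAlgebra K G) V) :
    Submodule (MonoidAlgebra K G) V :=
  Submodule.span (MonoidAlgebra K G)
    {v | ∃ g : G, ∃ u ∈ N, v = (MonoidAlgebra.of K G g - 1) • u}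

theorem augSub_le (N : Submodule (MonoidAlgebra K G) V) : augSub K N ≤ N := by
  refine Submodule.span_le.2 ?_
  rintro v ⟨g, u, hu, rfl⟩
  exact N.smul_mem _ hu

theorem augSub_mono {N N' : Submodule (MonoidAlgebra K G) V} (h : N ≤ N') :
    augSub K N ≤ augSub K N' := by
  refine Submodule.span_mono ?_
  rintro v ⟨g, u, hu, rfl⟩
  exact ⟨g, u, h hu, rfl⟩

theorem smul_mem_augSub {N : Submodule (MonoidAlgebra K G) V} {x : MonoidAlgebra K G}
    (hx : x ∈ augIdeal K G) {u : V} (hu : u ∈ N) : x • u ∈ augSub K N := by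
  unfold augIdeal Ideal.span at hx
  induction hx using Submodule.span_induction with
  | mem y hy =>
    obtain ⟨g, rfl⟩ := hy
    exact Submodule.subset_span ⟨g, u, hu, rfl⟩
  | zero => rw [zero_smul]; exact Submodule.zero_mem _
  | add a b _ _ ha hb => rw [add_smul]; exact Submodule.add_mem _ ha hb
  | smul a y _ hy => rw [smul_assoc]; exact Submodule.smul_mem _ _ hy

theorem mem_augSub_span {n : ℕ} (v : Fin n → V) {y : V}
    (hy : y ∈ augSub K (Submodule.span (MonoidAlgebra K G) (Set.range v))) :
    ∃ r : Fin n → MonoidAlgebra K G, (∀ i, r i ∈ augIdeal K G) ∧ y = ∑ i, r i • v i := by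
  unfold augSub at hy
  induction hy using Submodule.span_induction with
  | mem y hy =>
    obtain ⟨g, u, hu, rfl⟩ := hy
    obtain ⟨a, rfl⟩ := (Submodule.mem_span_range_iff_exists_fun _).1 hu
    refine ⟨fun i => (MonoidAlgebra.of K G g - 1) * a i,
      fun i => aug_mul_right (of_sub_one_mem g) _, ?_⟩
    rw [Finset.smul_sum]
    exact Finset.sum_congr rfl fun i _ => (mul_smul _ _ _).symm
  | zero => exact ⟨0, fun i => Ideal.zero_mem _, by simp⟩
  | add a b _ _ ha hb =>
    obtain ⟨r, hr, rfl⟩ := ha
    obtain ⟨r', hr', rfl⟩ := hb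
    refine ⟨fun i => r i + r' i, fun i => Ideal.add_mem _ (hr i) (hr' i), ?_⟩
    simp only [add_smul, Finset.sum_add_distrib]
  | smul a y _ hy =>
    obtain ⟨r, hr, rfl⟩ := hy
    refine ⟨fun i => a * r i, fun i => Ideal.mul_mem_left _ _ (hr i), ?_⟩
    rw [Finset.smul_sum]
    exact Finset.sum_congr rfl fun i _ => (mul_smul _ _ _).symm

theorem naka_aux (hnil : Nil K G) : ∀ (n : ℕ) (v : Fin n → V),
    Submodule.span (MonoidAlgebra K G) (Set.range v)
      ≤ augSub K (Submodule.span (MonoidAlgebra K G) (Set.range v)) →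
    Submodule.span (MonoidAlgebra K G) (Set.range v) = ⊥ := by
  intro n
  induction n with
  | zero =>
    intro v _
    rw [Set.range_eq_empty, Submodule.span_empty]
  | succ n ih =>
    intro v h
    have h0 : v 0 ∈ Submodule.span (MonoidAlgebra K G) (Set.range v) :=
      Submodule.subset_span ⟨0, rfl⟩
    obtain ⟨r, hr, hv⟩ := mem_augSub_span v (h h0)
    rw [Fin.sum_univ_succ] at hv
    have hu : IsUnit (1 - r 0) := (hnil _ (hr 0)).isUnit_one_sub
    obtain ⟨u, hu⟩ := hu
    have h1 : (1 - r 0) • v 0 = ∑ i : Fin n, r i.succ • v i.succ := by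
      rw [sub_smul, one_smul, sub_eq_iff_eq_add]
      exact hv.trans (add_comm _ _)
    have h2 : v 0 = (↑u⁻¹ : MonoidAlgebra K G) • ∑ i : Fin n, r i.succ • v i.succ := by
      rw [← h1, ← hu, ← mul_smul, u.inv_mul, one_smul]
    have h3 : v 0 ∈ Submodule.span (MonoidAlgebra K G) (Set.range fun i : Fin n => v i.succ) := by
      rw [h2]
      refine Submodule.smul_mem _ _ (Submodule.sum_mem _ fun i _ => Submodule.smul_mem _ _ ?_)
      exact Submodule.subset_span ⟨i, rfl⟩
    have h4 : Submodule.span (MonoidAlgebra K G) (Set.range v)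
        = Submodule.span (MonoidAlgebra K G) (Set.range fun i : Fin n => v i.succ) := by
      apply le_antisymm
      · refine Submodule.span_le.2 ?_
        rintro _ ⟨i, rfl⟩
        refine Fin.cases ?_ (fun i => ?_) i
        · exact h3
        · exact Submodule.subset_span ⟨i, rfl⟩
      · refine Submodule.span_le.2 ?_
        rintro _ ⟨i, rfl⟩
        exact Submodule.subset_span ⟨i.succ, rfl⟩
    rw [h4] at h ⊢
    exact ih _ h

/-- **Nakayama's lemma.** -/
theorem naka (hnil : Nil K G) (N : Submodule (MonoidAlgebra K G) V) (hN : N.FG)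
    (h : N ≤ augSub K N) : N = ⊥ := by
  obtain ⟨n, v, rfl⟩ := Submodule.fg_iff_exists_fin_generating_family.1 hN
  exact naka_aux hnil n v h

/-- The augmentation ideal of a finitely generated group. -/
theorem aug_le_span (S : Finset G) (hS : Subgroup.closure (S : Set G) = ⊤) :
    augIdeal K G ≤ Ideal.span {y | ∃ g ∈ S, y = MonoidAlgebra.of K G g - 1} := by
  refine Ideal.span_le.2 ?_
  rintro y ⟨g, rfl⟩
  have hg : g ∈ Subgroup.closure (S : Set G) := by rw [hS]; trivial
  change MonoidAlgebra.of K G g - 1 ∈ Ideal.span _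
  induction hg using Subgroup.closure_induction with
  | mem g hg => exact Ideal.subset_span ⟨g, hg, rfl⟩
  | one => rw [map_one, sub_self]; exact Ideal.zero_mem _
  | mul a b _ _ ha hb =>
    have h : MonoidAlgebra.of K G (a * b) - 1
        = MonoidAlgebra.of K G a * (MonoidAlgebra.of K G b - 1)
          + (MonoidAlgebra.of K G a - 1) := by
      rw [map_mul, mul_sub, mul_one]
      abel
    rw [h]
    exact Ideal.add_mem _ (Ideal.mul_mem_left _ _ hb) ha
  | inv a _ ha =>
    have h : MonoidAlgebra.of K G a⁻¹ - 1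
        = (-MonoidAlgebra.of K G a⁻¹) * (MonoidAlgebra.of K G a - 1) := by
      rw [mul_sub, mul_one, neg_mul, ← map_mul, inv_mul_cancel, map_one]
      abel
    rw [h]
    exact Ideal.mul_mem_left _ _ ha

theorem augSub_fg [hG : Group.FG G] {N : Submodule (MonoidAlgebra K G) V} (hN : N.FG) :
    (augSub K N).FG := by
  classical
  obtain ⟨S, hS⟩ := Group.fg_def.1 hG
  obtain ⟨n, v, rfl⟩ := Submodule.fg_iff_exists_fin_generating_family.1 hN
  have key : augSub K (Submodule.span (MonoidAlgebra K G) (Set.range v))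
      = Submodule.span (MonoidAlgebra K G)
        (((S ×ˢ (Finset.univ : Finset (Fin n))).image
          fun q => (MonoidAlgebra.of K G q.1 - 1) • v q.2 : Finset V) : Set V) := by
    apply le_antisymm
    · intro y hy
      obtain ⟨r, hr, rfl⟩ := mem_augSub_span v hy
      refine Submodule.sum_mem _ fun i _ => ?_
      have h1 := aug_le_span S hS (hr i)
      generalize r i = x at h1
      unfold Ideal.span at h1
      induction h1 using Submodule.span_induction with
      | mem y hy =>
        obtain ⟨g, hg, rfl⟩ := hy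
        refine Submodule.subset_span ?_
        rw [Finset.mem_coe, Finset.mem_image]
        exact ⟨(g, i), Finset.mem_product.2 ⟨hg, Finset.mem_univ _⟩, rfl⟩
      | zero => rw [zero_smul]; exact Submodule.zero_mem _
      | add a b _ _ ha hb => rw [add_smul]; exact Submodule.add_mem _ ha hb
      | smul a y _ hy => rw [smul_assoc]; exact Submodule.smul_mem _ _ hy
    · refine Submodule.span_le.2 ?_
      intro y hy
      rw [Finset.mem_coe, Finset.mem_image] at hy
      obtain ⟨q, _, rfl⟩ := hy
      exact Submodule.subset_span ⟨q.1, v q.2, Submodule.subset_span ⟨q.2, rfl⟩, rfl⟩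
  rw [key]
  exact ⟨_, rfl⟩

end Pool.Agent.BBT
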